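import Pool.Agent.Y192.FN.Defs

set_option autoImplicit false

/-! `Pool.Agent.Y192.FN.St_nred`: one-parameter groups give nonconstant maps from the
multiplicative group to the cover. -/

namespace Pool.Agent.Y220.FN

open MvPolynomial
open Pool.Agent.Y192.KC (Cov ZCov ZRed wp Hom)
open Pool.Agent.Y192.FN

theorem zpow_sum' {ι : Type*} (s : Finset ι) (f : ι → ℤ) {z : ℂ} (hz : z ≠ 0) :
    z ^ (∑ i ∈ s, f i) = ∏ i ∈ s, z ^ f i := by
  classical
  induction s using Finset.induction_on with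
  | empty => simp
  | insert a s ha ih => rw [Finset.sum_insert ha, Finset.prod_insert ha, zpow_add₀ hz, ih]

section

variable {n : ℕ}

/-- the weight of a monomial -/
def wtm (l : Fin (n + 1) → ℤ) (c : Fin (n + 1) →₀ ℕ) : ℤ := ∑ i, l i * c i

/-- monomials under a one-parameter group -/
theorem mon_tw (l : Fin (n + 1) → ℤ) (c : Fin (n + 1) →₀ ℕ) {z : ℂ} (hz : z ≠ 0) (m : ℤ)
    (y : Fin (n + 1) → ℂ) :
    ∏ i, (z ^ (m * l i) * y i) ^ c i = z ^ (m * wtm l c) * ∏ i, y i ^ c i := by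
  simp only [mul_pow, Finset.prod_mul_distrib]
  congr 1
  rw [wtm, Finset.mul_sum, zpow_sum' _ _ hz]
  refine Finset.prod_congr rfl fun i _ => ?_
  rw [← zpow_natCast, ← zpow_mul]
  congr 1
  ring

theorem ev_tw (A : MvPolynomial (Fin (n + 1)) ℂ) (l : Fin (n + 1) → ℤ) {z : ℂ} (hz : z ≠ 0)
    (m : ℤ) (y : Fin (n + 1) → ℂ) : eval (fun i => z ^ (m * l i) * y i) A =
      ∑ c ∈ A.support, coeff c A * (z ^ (m * wtm l c) * ∏ i, y i ^ c i) := by
  rw [eval_eq']
  refine Finset.sum_congr rfl fun c _ => ?_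
  rw [mon_tw l c hz]

theorem ev_hom {A : MvPolynomial (Fin (n + 1)) ℂ} {l : Fin (n + 1) → ℤ} {k : ℤ}
    (hA : ∀ c ∈ A.support, wtm l c = k) {z : ℂ} (hz : z ≠ 0) (m : ℤ) (y : Fin (n + 1) → ℂ) :
    eval (fun i => z ^ (m * l i) * y i) A = z ^ (m * k) * eval y A := by
  rw [ev_tw A l hz, eval_eq', Finset.mul_sum]
  refine Finset.sum_congr rfl fun c hc => ?_
  rw [hA c hc]
  ring

/-- homogeneous polynomials -/
theorem ev_homog {A : MvPolynomial (Fin (n + 1)) ℂ} {k : ℕ} (hA : A.IsHomogeneous k) {z : ℂ}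
    (hz : z ≠ 0) (y : Fin (n + 1) → ℂ) : eval (fun i => z * y i) A = z ^ k * eval y A := by
  have h1 : ∀ c ∈ A.support, wtm (fun _ => 1) c = (k : ℤ) := by
    intro c hc
    have h1 := hA (mem_support_iff.1 hc)
    rw [Finsupp.weight_apply, Finsupp.sum_fintype _ _ (by simp)] at h1
    unfold wtm
    rw [← h1]
    push_cast
    refine Finset.sum_congr rfl fun i _ => ?_
    simp
  have h2 := ev_hom h1 hz 1 y
  simp only [mul_one, one_mul, zpow_one, zpow_natCast] at h2
  exact h2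

theorem ev_wp (A : MvPolynomial (Fin (n + 1)) ℂ) (l : Fin (n + 1) → ℤ) (k : ℤ)
    (y : Fin (n + 1) → ℂ) : eval y (wp l k A) =
      ∑ c ∈ A.support with wtm l c = k, coeff c A * ∏ i, y i ^ c i := by
  classical
  unfold wp
  rw [map_sum]
  have h1 : (A.support.filter fun c => ∑ i, l i * (c i : ℤ) = k) =
      A.support.filter fun c => wtm l c = k := by
    refine Finset.filter_congr fun c _ => ?_
    rfl
  rw [h1]
  refine Finset.sum_congr rfl fun c _ => ?_
  rw [eval_monomial, Finsupp.prod_fintype _ _ (by simp)]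

theorem wp_sup (l : Fin (n + 1) → ℤ) (k : ℤ) (A : MvPolynomial (Fin (n + 1)) ℂ) :
    ∀ c ∈ (wp l k A).support, wtm l c = k := by
  classical
  intro c hc
  unfold wp at hc
  have h1 := support_sum hc
  rw [Finset.mem_biUnion] at h1
  obtain ⟨c', hc', h2⟩ := h1
  have h3 := support_monomial_subset h2
  rw [Finset.mem_singleton] at h3
  rw [h3]
  exact (Finset.mem_filter.1 hc').2

/-- the zeros of an ideal which is homogeneous for the weights -/
theorem ev_ideal {I : Ideal (MvPolynomial (Fin (n + 1)) ℂ)} {l : Fin (n + 1) → ℤ}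
    (hI : ∀ f ∈ I, ∀ k, wp l k f ∈ I) {y : Fin (n + 1) → ℂ} (hy : ∀ f ∈ I, eval y f = 0)
    {z : ℂ} (hz : z ≠ 0) (m : ℤ) : ∀ f ∈ I, eval (fun i => z ^ (m * l i) * y i) f = 0 := by
  classical
  intro f hf
  rw [ev_tw f l hz]
  rw [← Finset.sum_fiberwise_of_maps_to (s := f.support) (t := f.support.image (wtm l))
    (g := wtm l) (fun c hc => Finset.mem_image_of_mem _ hc)]
  refine Finset.sum_eq_zero fun k _ => ?_
  have h1 := hy _ (hI f hf k)
  rw [ev_wp] at h1
  have h2 : ∑ c ∈ f.support with wtm l c = k,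
      coeff c f * (z ^ (m * wtm l c) * ∏ i, y i ^ c i) =
      z ^ (m * k) * ∑ c ∈ f.support with wtm l c = k, coeff c f * ∏ i, y i ^ c i := by
    rw [Finset.mul_sum]
    refine Finset.sum_congr rfl fun c hc => ?_
    rw [(Finset.mem_filter.1 hc).2]
    ring
  rw [h2, h1, mul_zero]

/-- the zeros of a homogeneous ideal -/
theorem ev_cone {I : Ideal (MvPolynomial (Fin (n + 1)) ℂ)}
    (hI : ∀ f ∈ I, ∀ k, homogeneousComponent k f ∈ I) {y : Fin (n + 1) → ℂ}
    (hy : ∀ f ∈ I, eval y f = 0) {z : ℂ} (hz : z ≠ 0) :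
    ∀ f ∈ I, eval (fun i => z * y i) f = 0 := by
  intro f hf
  rw [← sum_homogeneousComponent f, map_sum]
  refine Finset.sum_eq_zero fun k _ => ?_
  rw [ev_homog (homogeneousComponent_isHomogeneous k f) hz, hy _ (hI f hf k), mul_zero]

end

theorem t_nred : St_nred := by
  classical
  intro n r X m hm hem hRed hno
  obtain ⟨l, ⟨i1, i2, hl⟩, hI, ⟨kG, hG⟩, hHS⟩ := hRed
  have hprime := X.prime
  have h1I : (1 : MvPolynomial (Fin (n + 1)) ℂ) ∉ X.I := fun h =>
    hprime.ne_top ((Ideal.eq_top_iff_one _).2 h)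
  -- normalised factorisations
  have hHS' : ∀ j, ∃ (D H S : MvPolynomial (Fin (n + 1)) ℂ) (kD kH : ℤ), D ∉ X.I ∧
      D * X.F j - H * S ^ X.e j ∈ X.I ∧
      (∀ c ∈ D.support, wtm l c = kD) ∧
      (∀ c ∈ H.support, wtm l c = kH) ∧ (X.d j = 0 → S = 1 ∧ kH - kD = 0) := by
    intro j
    by_cases hd : X.d j = 0
    · have hom0 : ∀ A : MvPolynomial (Fin (n + 1)) ℂ, A.IsHomogeneous 0 →
          ∀ c ∈ A.support, wtm l c = 0 := by
        intro A hA c hc
        have h1 := hA (mem_support_iff.1 hc)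
        rw [Finsupp.weight_apply, Finsupp.sum_fintype _ _ (by simp)] at h1
        have h2 : ∀ i, c i = 0 := by
          intro i
          have := (Finset.sum_eq_zero_iff.1 h1) i (Finset.mem_univ i)
          simpa using this
        simp [wtm, h2]
      refine ⟨1, X.F j, 1, 0, 0, h1I, by simp, hom0 _ (isHomogeneous_one _ _),
        hom0 _ (hd ▸ X.hF j), fun _ => ⟨rfl, sub_self _⟩⟩
    · obtain ⟨D, H, S, h1, -, -, ⟨kD, hkD⟩, ⟨kH, hkH⟩, -, -, -, h4⟩ := hHS j
      exact ⟨D, H, S, kD, kH, h1, h4, hkD, hkH, fun h => absurd h hd⟩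
  choose D H S kD kH hDI hFH hDhom hHom hd0 using hHS'
  -- a general point
  obtain ⟨x, hxI, hxC⟩ : ∃ x : Fin (n + 1) → ℂ, (∀ P ∈ X.I, eval x P = 0) ∧
      eval x ((∏ i, MvPolynomial.X i) * X.G * ∏ j, D j) ≠ 0 := by
    by_contra hcon
    push Not at hcon
    have h1 : ((∏ i, MvPolynomial.X i) * X.G * ∏ j, D j : MvPolynomial (Fin (n + 1)) ℂ) ∈
        vanishingIdeal ℂ (zeroLocus ℂ X.I) := by
      intro v hv
      exact hcon v fun P hP => hv P hP
    rw [IsPrime.vanishingIdeal_zeroLocus] at h1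
    rcases hprime.mem_or_mem h1 with h2 | h2
    · rcases hprime.mem_or_mem h2 with h3 | h3
      · obtain ⟨i, -, h4⟩ := (hprime.prod_mem_iff).1 h3
        exact X.hX i h4
      · exact X.hGI h3
    · obtain ⟨j, -, h4⟩ := (hprime.prod_mem_iff).1 h2
      exact hDI j h4
  simp only [map_mul, map_prod, eval_X] at hxC
  have hx0 : ∀ i, x i ≠ 0 := fun i =>
    Finset.prod_ne_zero_iff.1 (left_ne_zero_of_mul (left_ne_zero_of_mul hxC)) i
      (Finset.mem_univ i)
  have hxG : eval x X.G ≠ 0 := right_ne_zero_of_mul (left_ne_zero_of_mul hxC)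
  have hxD : ∀ j, eval x (D j) ≠ 0 := fun j =>
    Finset.prod_ne_zero_iff.1 (right_ne_zero_of_mul hxC) j (Finset.mem_univ j)
  -- roots
  choose a ha using fun i => IsAlgClosed.exists_pow_nat_eq (x i) hm
  choose b hb using fun j => IsAlgClosed.exists_pow_nat_eq (eval x (H j) / eval x (D j)) (X.he j)
  have ha0 : ∀ i, a i ≠ 0 := by
    intro i h
    have h1 := ha i
    rw [h, zero_pow hm.ne'] at h1
    exact hx0 i h1.symm
  -- the exponents
  let c : Fin r → ℤ := fun j => ((m / X.e j : ℕ) : ℤ) * (kH j - kD j)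
  have hc : ∀ j, (X.e j : ℤ) * c j = m * (kH j - kD j) := by
    intro j
    have h1 : X.e j * (m / X.e j) = m := Nat.mul_div_cancel' (hem j)
    simp only [c]
    rw [← mul_assoc]
    congr 1
    exact_mod_cast h1
  let wt : Fin r → ℕ := fun j => m / X.e j * X.d j
  have hwt : ∀ j, wt j * X.e j = m * X.d j := by
    intro j
    have h1 : X.e j * (m / X.e j) = m := Nat.mul_div_cancel' (hem j)
    simp only [wt]
    calc m / X.e j * X.d j * X.e j = X.e j * (m / X.e j) * X.d j := by ring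
      _ = m * X.d j := by rw [h1]
  let M : ℕ := ∑ i, (l i).natAbs + ∑ j, ∑ a ∈ (S j).support, ((m : ℤ) * wtm l a + c j).natAbs
  have hM1 : ∀ i, 0 ≤ l i + M := by
    intro i
    have h1 : (l i).natAbs ≤ M :=
      (Finset.single_le_sum (f := fun i => (l i).natAbs) (fun _ _ => Nat.zero_le _)
        (Finset.mem_univ i)).trans (Nat.le_add_right _ _)
    omega
  have hM2 : ∀ j, ∀ a ∈ (S j).support, 0 ≤ (m : ℤ) * wtm l a + c j + M * wt j := by
    intro j a ha
    by_cases hd : X.d j = 0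
    · obtain ⟨h1, h2⟩ := hd0 j hd
      rw [h1] at ha
      have h3 : a = 0 := by
        by_contra h4
        rw [mem_support_iff, coeff_one, if_neg (Ne.symm h4)] at ha
        exact ha rfl
      have h4 : c j = 0 := by simp only [c, h2, mul_zero]
      have h5 : wt j = 0 := by simp only [wt, hd, mul_zero]
      rw [h3, h4, h5]
      simp [wtm]
    · have h1 : 1 ≤ wt j := by
        rw [Nat.one_le_iff_ne_zero]
        intro h
        have h2 := hwt j
        rw [h, zero_mul] at h2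
        exact (Nat.mul_ne_zero hm.ne' hd) h2.symm
      have h2 : ((m : ℤ) * wtm l a + c j).natAbs ≤ M := by
        refine le_trans ?_ (Nat.le_add_left _ _)
        refine le_trans ?_ (Finset.single_le_sum
          (f := fun j => ∑ a ∈ (S j).support, ((m : ℤ) * wtm l a + c j).natAbs)
          (fun _ _ => Nat.zero_le _) (Finset.mem_univ j))
        exact Finset.single_le_sum (f := fun a : Fin (n + 1) →₀ ℕ =>
          ((m : ℤ) * wtm l a + c j).natAbs) (fun _ _ => Nat.zero_le _) ha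
      have h3 : (M : ℤ) ≤ M * wt j := by
        have : (M : ℤ) * 1 ≤ M * wt j :=
          mul_le_mul_of_nonneg_left (by exact_mod_cast h1) (by positivity)
        linarith
      omega
  -- the curve
  let y : ℂ → Fin (n + 1) → ℂ := fun z i => z ^ ((m : ℤ) * l i) * x i
  let p : Fin (n + 1) → Polynomial ℂ := fun i =>
    Polynomial.C (a i) * Polynomial.X ^ (l i + M).toNat
  let s : Fin r → Polynomial ℂ := fun j => ∑ α ∈ (S j).support,
    Polynomial.C (b j * (coeff α (S j) * ∏ i, x i ^ α i)) *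
      Polynomial.X ^ ((m : ℤ) * wtm l α + c j + M * wt j).toNat
  have hp : ∀ i (z : ℂ), z ≠ 0 → (p i).eval z = z ^ M * (z ^ l i * a i) := by
    intro i z hz
    simp only [p, Polynomial.eval_mul, Polynomial.eval_C, Polynomial.eval_pow, Polynomial.eval_X]
    rw [← zpow_natCast z (l i + M).toNat, Int.toNat_of_nonneg (hM1 i), zpow_add₀ hz, zpow_natCast]
    ring
  have hpm : ∀ z : ℂ, z ≠ 0 → (fun i => (p i).eval z ^ m) = fun i => z ^ (M * m) * y z i := by
    intro z hz
    funext i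
    rw [hp i z hz, mul_pow, mul_pow, ha i, ← pow_mul]
    simp only [y]
    congr 2
    rw [← zpow_natCast, ← zpow_mul, mul_comm]
  have hs : ∀ j (z : ℂ), z ≠ 0 → (s j).eval z =
      z ^ (M * wt j) * (z ^ c j * b j * eval (y z) (S j)) := by
    intro j z hz
    simp only [s, y]
    rw [Polynomial.eval_finsetSum, ev_tw (S j) l hz, Finset.mul_sum, Finset.mul_sum]
    refine Finset.sum_congr rfl fun α hα => ?_
    simp only [Polynomial.eval_mul, Polynomial.eval_C, Polynomial.eval_pow, Polynomial.eval_X]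
    rw [← zpow_natCast z (((m : ℤ) * wtm l α + c j + M * wt j).toNat),
      Int.toNat_of_nonneg (hM2 j α hα), zpow_add₀ hz, zpow_add₀ hz]
    have h1 : z ^ ((M : ℤ) * wt j) = z ^ (M * wt j) := by
      rw [← zpow_natCast]
      push_cast
      rfl
    rw [h1]
    ring
  have hyI : ∀ z : ℂ, z ≠ 0 → ∀ f ∈ X.I, eval (y z) f = 0 := fun z hz => ev_ideal hI hxI hz m
  have hzM : ∀ z : ℂ, z ≠ 0 → z ^ (M * m) ≠ 0 := fun z hz => pow_ne_zero _ hz
  refine hno p s ⟨fun z hz => ⟨0, ?_⟩, fun z hz => ⟨?_, ?_, ?_⟩, 2, 1, two_ne_zero, one_ne_zero,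
    i1, i2, ?_⟩
  · rw [hp 0 z hz]
    exact mul_ne_zero (pow_ne_zero _ hz) (mul_ne_zero (zpow_ne_zero _ hz) (ha0 0))
  · intro f hf
    show eval (fun i => (p i).eval z ^ m) f = 0
    rw [hpm z hz]
    exact ev_cone X.hom (hyI z hz) (hzM z hz) f hf
  · intro j
    show (s j).eval z ^ X.e j = eval (fun i => (p i).eval z ^ m) (X.F j)
    rw [hpm z hz, ev_homog (X.hF j) (hzM z hz), hs j z hz]
    have h1 := hyI z hz _ (hFH j)
    rw [map_sub, map_mul, map_mul, map_pow, sub_eq_zero] at h1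
    have h2 : eval (y z) (D j) = z ^ ((m : ℤ) * kD j) * eval x (D j) := ev_hom (hDhom j) hz m x
    have h3 : eval (y z) (H j) = z ^ ((m : ℤ) * kH j) * eval x (H j) := ev_hom (hHom j) hz m x
    have h4 : z ^ ((m : ℤ) * kD j) ≠ 0 := zpow_ne_zero _ hz
    have h5 : (z ^ c j) ^ X.e j * z ^ ((m : ℤ) * kD j) = z ^ ((m : ℤ) * kH j) := by
      rw [← zpow_natCast, ← zpow_mul, mul_comm (c j), hc j, ← zpow_add₀ hz]
      congr 1
      ring
    have h6 : b j ^ X.e j * eval x (D j) = eval x (H j) := by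
      rw [hb j, div_mul_cancel₀ _ (hxD j)]
    have h7 : (z ^ (M * wt j)) ^ X.e j = (z ^ (M * m)) ^ X.d j := by
      rw [← pow_mul, ← pow_mul, mul_assoc, hwt j, mul_assoc]
    rw [h2, h3] at h1
    rw [mul_pow, mul_pow, mul_pow, h7]
    congr 1
    apply mul_left_cancel₀ (mul_ne_zero h4 (hxD j))
    rw [h1, ← h5, ← h6]
    ring
  · show eval (fun i => (p i).eval z ^ m) X.G ≠ 0
    rw [hpm z hz, ev_homog X.hG (hzM z hz)]
    refine mul_ne_zero (pow_ne_zero _ (hzM z hz)) ?_
    have h6 := hyI z hz _ hG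
    have h7 := hxI _ hG
    rw [map_sub, sub_eq_zero] at h6 h7
    have h8 : eval (y z) (wp l kG X.G) = z ^ ((m : ℤ) * kG) * eval x (wp l kG X.G) :=
      ev_hom (wp_sup l kG X.G) hz m x
    rw [h6, h8, ← h7]
    exact mul_ne_zero (zpow_ne_zero _ hz) hxG
  · rw [hp i1 2 two_ne_zero, hp i2 2 two_ne_zero, hp i1 1 one_ne_zero, hp i2 1 one_ne_zero]
    simp only [one_pow, one_zpow, one_mul]
    intro h
    have h3 : (2 : ℂ) ^ l i1 = (2 : ℂ) ^ l i2 := by
      apply mul_left_cancel₀ (mul_ne_zero (pow_ne_zero M (two_ne_zero : (2 : ℂ) ≠ 0))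
        (mul_ne_zero (ha0 i1) (ha0 i2)))
      linear_combination h
    have h4 : (2 : ℝ) ^ l i1 = (2 : ℝ) ^ l i2 := by
      have h5 := congrArg norm h3
      simpa [norm_zpow] using h5
    exact hl (zpow_right_injective₀ (by norm_num) (by norm_num) h4)

end Pool.Agent.Y220.FN
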